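import Pool.Agent.XD.Final
import Pool.Agent.VU.End.All
import Pool.Agent.V7.Final
import Pool.Agent.H74.V7.FinC

/-!
# Fixed degree: the classification off a thin layer, in one statement

Here `N = r + 1 - #{i | m i = d}` is the number of variables left when the cones are removed.
-/

set_option autoImplicit false

namespace Pool.Agent.H74.V9

open Finset Pool.Agent.H18.Fat Pool.Agent.H21.HD Pool.Agent.H21.NX Pool.Agent.H74.V8C
open Pool.Agent.H21.NX.GenBX (gdim_attained)

theorem fro_zero_eq {P : Type} (r : ℕ) (E : P → ℕ) (I : Finset P) (hE : ∀ i ∈ I, 1 ≤ E i) :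
    fro r E I 0 = 1 := by
  classical
  induction I using Finset.induction_on with
  | empty => simp [fro]
  | insert a s ha ih =>
    have h1 := hE a (mem_insert_self a s)
    rw [fro_insert' r E s a ha 0, if_neg (by omega), ih fun i hi => hE i (mem_insert_of_mem hi),
      sub_zero]

/-- The coefficient of `t`. -/
theorem fro_one_add {P : Type} [DecidableEq P] (r : ℕ) (E : P → ℕ) (I : Finset P)
    (hE : ∀ i ∈ I, 1 ≤ E i) :
    fro r E I 1 + ((I.filter fun i => E i = 1).card : ℤ) = r + 1 := by
  induction I using Finset.induction_on with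
  | empty => simp [fro]
  | insert a s ha ih =>
    have h1 := hE a (mem_insert_self a s)
    have h2 := ih fun i hi => hE i (mem_insert_of_mem hi)
    rw [fro_insert' r E s a ha 1, filter_insert]
    by_cases h3 : E a = 1
    · rw [if_pos h3, if_pos (by omega), h3, Nat.sub_self,
        fro_zero_eq r E s fun i hi => hE i (mem_insert_of_mem hi),
        card_insert_of_notMem (by rw [mem_filter]; tauto)]
      push_cast
      linarith
    · rw [if_neg h3, if_neg (by omega)]
      linarith

/-- Many simple points: exactness with them follows from exactness without them. -/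
theorem simple_exact (r d k : ℕ) (m : Fin k → ℕ) (hd : 2 ≤ d) (hm : ∀ i, 1 ≤ m i ∧ m i ≤ d) :
    ∃ (k' : ℕ) (m' : Fin k' → ℕ), (∀ i, 1 ≤ m' i ∧ m' i ≤ d) ∧
      (univ.filter fun i => m' i = d).card = (univ.filter fun i => m i = d).card ∧
      (∀ j < d, fro r (fun i => d + 1 - m' i) univ j = fro r (fun i => d + 1 - m i) univ j) ∧
      fro r (fun i => d + 1 - m' i) univ d =
        fro r (fun i => d + 1 - m i) univ d + (univ.filter fun i => m i = 1).card ∧
      gdim r d m ≤ gdim r d m' - (univ.filter fun i => m i = 1).card := by
  classical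
  obtain ⟨S, hS⟩ : ∃ S : Finset (Fin k), S = univ.filter fun i => m i = 1 := ⟨_, rfl⟩
  have hSm : ∀ i, i ∈ S ↔ m i = 1 := by
    intro i
    rw [hS, mem_filter]
    simp
  obtain ⟨T, hT⟩ : ∃ T : Finset (Fin k), T = univ.filter fun i => m i ≠ 1 := ⟨_, rfl⟩
  have hTm : ∀ i, i ∈ T ↔ m i ≠ 1 := by
    intro i
    rw [hT, mem_filter]
    simp
  have hdis : Disjoint T S := by
    rw [disjoint_left]
    intro i hi hi'
    rw [hTm] at hi
    rw [hSm] at hi'
    exact hi hi'
  have hun : (univ : Finset (Fin k)) = T ∪ S := by
    ext i
    rw [mem_union, hTm, hSm]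
    simp only [mem_univ, true_iff]
    tauto
  obtain ⟨t, ht⟩ : ∃ t, t = Fintype.card {i : Fin k // m i ≠ 1} := ⟨_, rfl⟩
  subst ht
  let g : {i : Fin k // m i ≠ 1} ≃ Fin (Fintype.card {i : Fin k // m i ≠ 1}) := Fintype.equivFin _
  let g' : {i : Fin k // ¬ m i ≠ 1} ≃ Fin (Fintype.card {i : Fin k // ¬ m i ≠ 1}) :=
    Fintype.equivFin _
  let f : Fin (Fintype.card {i : Fin k // m i ≠ 1}) ↪ Fin k :=
    g.symm.toEmbedding.trans (Function.Embedding.subtype _)
  have hf : (univ : Finset (Fin (Fintype.card {i : Fin k // m i ≠ 1}))).map f = T := by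
    ext i
    rw [mem_map, hTm]
    constructor
    · rintro ⟨j, _, rfl⟩
      exact (g.symm j).2
    · intro hi
      refine ⟨g ⟨i, hi⟩, mem_univ _, ?_⟩
      show ((g.symm (g ⟨i, hi⟩) : {i : Fin k // m i ≠ 1}) : Fin k) = i
      rw [Equiv.symm_apply_apply]
  have hfr : ∀ j, fro r (fun i => d + 1 - m (f i)) univ j = fro r (fun i => d + 1 - m i) T j := by
    intro j
    rw [← hf, Pool.Agent.H74.V8C.fro_map]
  have hcard : Fintype.card {i : Fin k // ¬ m i ≠ 1} = S.card := by
    rw [Fintype.card_subtype, hS]
    congr 1
    ext i
    rw [mem_filter, mem_filter, not_not]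
  rw [← hS]
  refine ⟨_, fun i => m (f i), fun i => hm _, ?_, ?_, ?_, ?_⟩
  · have h1 : (univ.filter fun i => m i = d) = (univ.filter fun i => m (f i) = d).map f := by
      ext i
      rw [mem_map, mem_filter]
      constructor
      · rintro ⟨_, hi⟩
        have h2 : i ∈ T := by
          rw [hTm]
          omega
        rw [← hf, mem_map] at h2
        obtain ⟨j, _, rfl⟩ := h2
        exact ⟨j, by rw [mem_filter]; exact ⟨mem_univ _, hi⟩, rfl⟩
      · rintro ⟨j, hj, rfl⟩
        rw [mem_filter] at hj
        exact ⟨mem_univ _, hj.2⟩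
    rw [h1, card_map]
  · intro j hj
    have h0 : ∀ D : DecidableEq (Fin k), @Union.union _ (@Finset.instUnion _ D) T S =
        T.disjUnion S hdis := fun D => (disjUnion_eq_union T S hdis).symm
    have h1 := fro_union_large r j (fun i => d + 1 - m i) T S hdis fun i hi => by
      rw [hSm] at hi
      omega
    rw [h0] at h1
    rw [hfr, hun, h0, h1]
  · have h1 : fro r (fun i => d + 1 - m i) (T ∪ S) d =
        fro r (fun i => d + 1 - m i) T d - S.card :=
      fro_simple' r d (fun i => d + 1 - m i) T S hdis (fun i _ => by have := hm i; omega) (by omega)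
        fun i hi => by
          rw [hSm] at hi
          omega
    rw [hfr, hun, h1]
    ring
  · have h1 := gdim_simples r d (fun i => m (f i)) (Fintype.card {i : Fin k // ¬ m i ≠ 1})
    let e : Fin k ≃ Fin (Fintype.card {i : Fin k // m i ≠ 1}) ⊕
        Fin (Fintype.card {i : Fin k // ¬ m i ≠ 1}) :=
      (Equiv.sumCompl fun i : Fin k => m i ≠ 1).symm.trans (Equiv.sumCongr g g')
    have h2 := gdim_comp_equiv r d e (Sum.elim (fun i => m (f i))
      fun _ : Fin (Fintype.card {i : Fin k // ¬ m i ≠ 1}) => 1)
    have h3 : (fun i => Sum.elim (fun i => m (f i))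
        (fun _ : Fin (Fintype.card {i : Fin k // ¬ m i ≠ 1}) => 1) (e i)) = m := by
      funext i
      by_cases hi : m i ≠ 1
      · have h4 : e i = Sum.inl (g ⟨i, hi⟩) := by
          show Sum.map g g' ((Equiv.sumCompl fun i : Fin k => m i ≠ 1).symm i) = _
          rw [Equiv.sumCompl_symm_apply_of_pos (a := i) hi]
          rfl
        rw [h4]
        show m ((g.symm (g ⟨i, hi⟩) : {i : Fin k // m i ≠ 1}) : Fin k) = m i
        rw [Equiv.symm_apply_apply]
      · have h4 : e i = Sum.inr (g' ⟨i, hi⟩) := by
          show Sum.map g g' ((Equiv.sumCompl fun i : Fin k => m i ≠ 1).symm i) = _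
          rw [Equiv.sumCompl_symm_apply_of_neg (a := i) hi]
          rfl
        rw [h4]
        show 1 = m i
        rw [not_not] at hi
        exact hi.symm
    rw [h3] at h2
    rw [h2, ← hcard]
    exact h1

/-- The classification for fixed `d`, off a thin layer. -/
theorem fixed_class (d : ℕ) : ∃ δ : ℝ, 0 < δ ∧ ∀ η : ℝ, 0 < η → ∃ n₀ : ℕ, ∀ (r k : ℕ) (m : Fin k → ℕ),
    (∀ i, 1 ≤ m i ∧ m i ≤ d) → ∀ N : ℕ, N + (univ.filter fun i => m i = d).card = r + 1 → n₀ ≤ N →
      ((∃ j < d, fro r (fun i => d + 1 - m i) univ j ≤ 0) ∨
          (fro r (fun i => d + 1 - m i) univ d : ℝ) ≤ -(η * (N : ℝ) ^ d) →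
        ForGeneralPoints r k fun p => Module.finrank ℂ (fatForms r d p m) = 0) ∧
      ((∀ j ≤ d, 0 < fro r (fun i => d + 1 - m i) univ j) →
        ForGeneralPoints r k fun p =>
          fro r (fun i => d + 1 - m i) univ d ≤ (Module.finrank ℂ (fatForms r d p m) : ℤ)) ∧
      (((∀ j < d, 0 < fro r (fun i => d + 1 - m i) univ j) ∧
          (η * (N : ℝ) ^ d ≤ (fro r (fun i => d + 1 - m i) univ d : ℝ) ∨
            η * (N : ℝ) ^ d ≤ ((univ.filter fun i => m i = 1).card : ℕ))) ∨
          (((univ.filter fun i => d + 1 < 2 * m i ∧ m i < d).card : ℕ) : ℝ) ≤ δ * N →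
        ForGeneralPoints r k fun p => (Module.finrank ℂ (fatForms r d p m) : ℤ) =
          max (fro r (fun i => d + 1 - m i) univ d) 0) := by
  classical
  obtain ⟨δ, hδ, hδ1, r₀, hU⟩ := Pool.Agent.VU.exact_coneU d
  refine ⟨δ / 2, by linarith, fun η hη => ?_⟩
  obtain ⟨n₁, hX⟩ := Pool.Agent.XD.classify d (η / 2) (by linarith)
  refine ⟨n₁ + r₀ + 2, fun r k m hm N hN hn => ?_⟩
  -- `a_1 = N`
  have hone : ∀ (k : ℕ) (m : Fin k → ℕ), (∀ i, 1 ≤ m i ∧ m i ≤ d) →
      N + (univ.filter fun i => m i = d).card = r + 1 →
      fro r (fun i => d + 1 - m i) univ 1 = (N : ℤ) := by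
    intro k m hm hN
    have h1 := fro_one_add r (fun i => d + 1 - m i) univ fun i _ => by
      have := hm i
      omega
    have h2 : (univ.filter fun i => d + 1 - m i = 1) = univ.filter fun i => m i = d := by
      refine filter_congr fun i _ => ?_
      have := hm i
      omega
    rw [h2] at h1
    have h3 : (N : ℤ) + ((univ.filter fun i => m i = d).card : ℤ) = r + 1 := by exact_mod_cast hN
    linarith
  have hNpos : (0 : ℝ) ≤ (N : ℝ) ^ d := by positivity
  obtain ⟨hX1, hX2, hX3⟩ := hX r k m hm (by rw [hone k m hm hN]; exact_mod_cast (by omega))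
  rw [hone k m hm hN] at hX1 hX3
  have hcast : ((N : ℤ) : ℝ) = (N : ℝ) := by push_cast; rfl
  rw [hcast] at hX1 hX3
  refine ⟨fun h => hX1 ?_, hX2, fun h => ?_⟩
  · rcases h with h | h
    · exact Or.inl h
    · refine Or.inr (h.trans ?_)
      nlinarith
  · rcases h with ⟨hpos, h⟩ | h
    · -- the first two cases
      rcases le_or_gt (η / 2 * (N : ℝ) ^ d) (fro r (fun i => d + 1 - m i) univ d : ℝ) with h1 | h1
      · have h2 : 0 < fro r (fun i => d + 1 - m i) univ d := by
          have hN1 : (0 : ℝ) < (N : ℝ) := by
            have : 1 ≤ N := by omega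
            exact_mod_cast this
          have h3 : (0 : ℝ) < (fro r (fun i => d + 1 - m i) univ d : ℝ) :=
            lt_of_lt_of_le (by positivity) h1
          exact_mod_cast h3
        refine (hX3 (fun j hj => ?_) h1).mono fun p hp => ?_
        · rcases lt_or_eq_of_le hj with hj | rfl
          · exact hpos j hj
          · exact h2
        · rw [hp, max_eq_left h2.le]
      · rcases le_or_gt (fro r (fun i => d + 1 - m i) univ d : ℝ) (-(η / 2 * (N : ℝ) ^ d)) with h2 | h2
        · refine (hX1 (Or.inr h2)).mono fun p hp => ?_
          have h3 : fro r (fun i => d + 1 - m i) univ d ≤ 0 := by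
            have h4 : (fro r (fun i => d + 1 - m i) univ d : ℝ) ≤ 0 := h2.trans (by
              have : 0 ≤ η / 2 * (N : ℝ) ^ d := by positivity
              linarith)
            exact_mod_cast h4
          rw [hp, max_eq_right h3]
          rfl
        · -- the layer: many simple points
          have h3 : η * (N : ℝ) ^ d ≤ ((univ.filter fun i => m i = 1).card : ℕ) := by
            rcases h with h | h
            · have : η / 2 * (N : ℝ) ^ d < η * (N : ℝ) ^ d := by
                have hN1 : (0 : ℝ) < (N : ℝ) := by
                  have : 1 ≤ N := by omega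
                  exact_mod_cast this
                have : 0 < η / 2 * (N : ℝ) ^ d := by positivity
                linarith
              linarith
            · exact h
          rcases Nat.lt_or_ge d 2 with hd | hd
          · have h4 : (((univ.filter fun i => d + 1 < 2 * m i ∧ m i < d).card : ℕ) : ℝ) ≤
                δ * ((r - (univ.filter fun i => d + 1 < 2 * m i ∧ m i = d).card : ℕ) : ℝ) := by
              have h5 : (univ.filter fun i => d + 1 < 2 * m i ∧ m i < d) = ∅ := by
                rw [filter_eq_empty_iff]
                intro i _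
                have := hm i
                omega
              rw [h5, card_empty]
              push_cast
              positivity
            refine hU r k m _ hm rfl ?_ h4
            have h6 : (univ.filter fun i => d + 1 < 2 * m i ∧ m i = d) = ∅ := by
              rw [filter_eq_empty_iff]
              intro i _
              have := hm i
              omega
            rw [h6, card_empty]
            omega
          · obtain ⟨k', m', hm', hc, hj', hd', hg⟩ := simple_exact r d k m hd hm
            have hN' : N + (univ.filter fun i => m' i = d).card = r + 1 := by rw [hc]; exact hN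
            obtain ⟨_, _, hX3'⟩ := hX r k' m' hm' (by rw [hone k' m' hm' hN']; exact_mod_cast (by omega))
            rw [hone k' m' hm' hN', hcast] at hX3'
            obtain ⟨n, hnn⟩ : ∃ n, n = (univ.filter fun i => m i = 1).card := ⟨_, rfl⟩
            rw [← hnn] at hd' hg h3
            have h4 : η / 2 * (N : ℝ) ^ d ≤ (fro r (fun i => d + 1 - m' i) univ d : ℝ) := by
              rw [hd']
              push_cast
              linarith
            have h5 : 0 < fro r (fun i => d + 1 - m' i) univ d := by
              have hN1 : (0 : ℝ) < (N : ℝ) := by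
                have : 1 ≤ N := by omega
                exact_mod_cast this
              have h3 : (0 : ℝ) < (fro r (fun i => d + 1 - m' i) univ d : ℝ) :=
                lt_of_lt_of_le (by positivity) h4
              exact_mod_cast h3
            have h6 : Gen r (Fin k') fun p => (Module.finrank ℂ (fatForms r d p m') : ℤ) =
                fro r (fun i => d + 1 - m' i) univ d := hX3' (fun j hj => by
              rcases lt_or_eq_of_le hj with hj | rfl
              · rw [hj' j hj]
                exact hpos j hj
              · exact h5) h4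
            obtain ⟨p, hp1, hp2⟩ := (h6.and (gen_gdim r d m')).exists
            rw [hp2] at hp1
            have hg2 : Gen r (Fin k) fun p => Module.finrank ℂ (fatForms r d p m) = gdim r d m :=
              gen_gdim r d m
            -- the lower bound
            rcases lt_or_ge 0 (fro r (fun i => d + 1 - m i) univ d) with h7 | h7
            · have h8 : Gen r (Fin k) fun p => fro r (fun i => d + 1 - m i) univ d ≤
                  (Module.finrank ℂ (fatForms r d p m) : ℤ) := hX2 fun j hj => by
                rcases lt_or_eq_of_le hj with hj | rfl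
                · exact hpos j hj
                · exact h7
              have h9 : Gen r (Fin k) fun p => (Module.finrank ℂ (fatForms r d p m) : ℤ) =
                  max (fro r (fun i => d + 1 - m i) univ d) 0 := by
                refine (hg2.and h8).mono ?_
                rintro p ⟨hq1, hq2⟩
                omega
              exact h9
            · have h9 : Gen r (Fin k) fun p => (Module.finrank ℂ (fatForms r d p m) : ℤ) =
                  max (fro r (fun i => d + 1 - m i) univ d) 0 := by
                refine hg2.mono ?_
                intro p hq1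
                omega
              exact h9
    · -- few large points
      have h1 : (univ.filter fun i => d + 1 < 2 * m i ∧ m i = d).card ≤
          (univ.filter fun i => m i = d).card :=
        card_le_card fun i hi => by
          rw [mem_filter] at hi ⊢
          exact ⟨hi.1, hi.2.2⟩
      refine hU r k m _ hm rfl (by omega) (h.trans ?_)
      have h2 : N ≤ 2 * (r - (univ.filter fun i => d + 1 < 2 * m i ∧ m i = d).card) := by omega
      have h3 : (N : ℝ) ≤ 2 * ((r - (univ.filter fun i => d + 1 < 2 * m i ∧ m i = d).card : ℕ) : ℝ) := by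
        exact_mod_cast h2
      nlinarith

end Pool.Agent.H74.V9
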